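import Pool.Agent.Helper80.MM.Stm

/-! Package METR of MM: sublevel sets of polynomials and Borel-Cantelli. -/

set_option autoImplicit false

namespace Pool.Agent.Helper32.MM

open MeasureTheory Polynomial Filter

/-- separated points in a set of large measure -/
lemma exists_sep {E : Set ℝ} {ρ : ℝ} (hρ : 0 < ρ) (m : ℕ)
    (hE : ENNReal.ofReal (2 * m * ρ) < volume E) :
    ∀ j ≤ m + 1, ∃ s : Finset ℝ, s.card = j ∧ (s : Set ℝ) ⊆ E ∧
      ∀ x ∈ s, ∀ y ∈ s, x ≠ y → ρ ≤ |x - y| := by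
  intro j
  induction j with
  | zero => intro _; exact ⟨∅, rfl, by simp, by simp⟩
  | succ j ih =>
    intro hj
    obtain ⟨s, hs, hsE, hsep⟩ := ih (by omega)
    have hex : ∃ x ∈ E, ∀ y ∈ s, ρ ≤ |x - y| := by
      by_contra hcon
      push Not at hcon
      have hsub : E ⊆ ⋃ y ∈ s, Metric.ball y ρ := by
        intro x hx
        obtain ⟨y, hy, hxy⟩ := hcon x hx
        simp only [Set.mem_iUnion, Metric.mem_ball, Real.dist_eq]
        exact ⟨y, hy, hxy⟩
      have h1 : volume E ≤ ENNReal.ofReal (2 * m * ρ) := by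
        calc volume E ≤ volume (⋃ y ∈ s, Metric.ball y ρ) := measure_mono hsub
          _ ≤ ∑ y ∈ s, volume (Metric.ball y ρ) := measure_biUnion_finset_le _ _
          _ = ∑ y ∈ s, ENNReal.ofReal (2 * ρ) := by simp only [Real.volume_ball]
          _ = s.card * ENNReal.ofReal (2 * ρ) := by rw [Finset.sum_const, nsmul_eq_mul]
          _ = ENNReal.ofReal (s.card * (2 * ρ)) := by
            rw [ENNReal.ofReal_mul (p := (s.card : ℝ)) (by positivity), ENNReal.ofReal_natCast]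
          _ ≤ _ := by
            apply ENNReal.ofReal_le_ofReal
            have h2 : (s.card : ℝ) ≤ m := by
              rw [hs]
              exact_mod_cast (by omega : j ≤ m)
            nlinarith
      exact absurd hE (not_lt.2 h1)
    obtain ⟨x, hx, hxs⟩ := hex
    have hxn : x ∉ s := by
      intro h
      have := hxs x h
      rw [sub_self, abs_zero] at this
      linarith
    refine ⟨insert x s, by rw [Finset.card_insert_of_notMem hxn, hs], ?_, ?_⟩
    · rw [Finset.coe_insert]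
      exact Set.insert_subset hx hsE
    · intro y hy z hz hyz
      rcases Finset.mem_insert.1 hy with h1 | h1 <;> rcases Finset.mem_insert.1 hz with h2 | h2
      · exact absurd (h1.trans h2.symm) hyz
      · rw [h1]
        exact hxs z h2
      · rw [h2, abs_sub_comm]
        exact hxs y h1
      · exact hsep y h1 z h2 hyz

/-- the coefficients of a product of linear factors -/
lemma coeff_prod {R : ℝ} (hR : 0 ≤ R) (s : Finset ℝ) (hs : ∀ x ∈ s, |x| ≤ R) (k : ℕ) :
    |(∏ x ∈ s, (X - C x)).coeff k| ≤ (1 + R) ^ s.card := by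
  induction s using Finset.induction_on generalizing k with
  | empty =>
    rw [Finset.prod_empty, coeff_one, Finset.card_empty, pow_zero]
    split_ifs <;> simp
  | insert a s ha ih =>
    rw [Finset.prod_insert ha, Finset.card_insert_of_notMem ha, sub_mul, coeff_sub, coeff_C_mul]
    have h1 := ih (fun x hx => hs x (Finset.mem_insert_of_mem hx))
    have ha' := hs a (Finset.mem_insert_self _ _)
    have h2 : |(X * ∏ x ∈ s, (X - C x)).coeff k| ≤ (1 + R) ^ s.card := by
      cases k with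
      | zero =>
        rw [coeff_X_mul_zero, abs_zero]
        positivity
      | succ k =>
        rw [coeff_X_mul]
        exact h1 k
    have h3 : |a * (∏ x ∈ s, (X - C x)).coeff k| ≤ R * (1 + R) ^ s.card := by
      rw [abs_mul]
      exact mul_le_mul ha' (h1 k) (abs_nonneg _) hR
    calc |(X * ∏ x ∈ s, (X - C x)).coeff k - a * (∏ x ∈ s, (X - C x)).coeff k|
        ≤ |(X * ∏ x ∈ s, (X - C x)).coeff k| + |a * (∏ x ∈ s, (X - C x)).coeff k| := abs_sub _ _
      _ ≤ (1 + R) ^ s.card + R * (1 + R) ^ s.card := add_le_add h2 h3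
      _ = (1 + R) ^ (s.card + 1) := by ring

/-- Lagrange interpolation at separated points -/
lemma coeff_le {m : ℕ} {f : ℝ[X]} (hf : f.natDegree ≤ m) {s : Finset ℝ} (hs : s.card = m + 1)
    {R δ ρ : ℝ} (hR : 0 ≤ R) (hρ : 0 < ρ) (hδ : 0 ≤ δ) (hsR : ∀ x ∈ s, |x| ≤ R)
    (hsep : ∀ x ∈ s, ∀ y ∈ s, x ≠ y → ρ ≤ |x - y|) (hsf : ∀ x ∈ s, |f.eval x| ≤ δ) (k : ℕ) :
    |f.coeff k| ≤ (m + 1) * δ * ((1 + R) / ρ) ^ m := by
  have h1 : f = Lagrange.interpolate s id fun i => f.eval (id i) := by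
    apply Lagrange.eq_interpolate (Set.injOn_id _)
    rw [hs]
    exact lt_of_le_of_lt (natDegree_le_iff_degree_le.1 hf) (by exact_mod_cast Nat.lt_succ_self m)
  have h2 : f.coeff k = ∑ x ∈ s, f.eval x * ((∏ y ∈ s.erase x, (x - y)⁻¹) *
      (∏ y ∈ s.erase x, (X - C y)).coeff k) := by
    conv_lhs => rw [h1, Lagrange.interpolate_apply]
    rw [finsetSum_coeff]
    refine Finset.sum_congr rfl fun x _ => ?_
    rw [coeff_C_mul]
    congr 1
    unfold Lagrange.basis Lagrange.basisDivisor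
    rw [Finset.prod_mul_distrib, ← map_prod, coeff_C_mul]
    rfl
  rw [h2]
  have h3 : ∀ x ∈ s, |f.eval x * ((∏ y ∈ s.erase x, (x - y)⁻¹) *
      (∏ y ∈ s.erase x, (X - C y)).coeff k)| ≤ δ * ((1 + R) / ρ) ^ m := by
    intro x hx
    have hc : (s.erase x).card = m := by
      rw [Finset.card_erase_of_mem hx, hs]
      rfl
    have h4 := coeff_prod hR (s.erase x) (fun y hy => hsR y (Finset.mem_of_mem_erase hy)) k
    rw [hc] at h4
    have h5 : |∏ y ∈ s.erase x, (x - y)⁻¹| ≤ (ρ⁻¹) ^ m := by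
      rw [Finset.abs_prod, ← hc, ← Finset.prod_const]
      apply Finset.prod_le_prod (fun _ _ => abs_nonneg _)
      intro y hy
      obtain ⟨hyx, hys⟩ := Finset.mem_erase.1 hy
      rw [abs_inv]
      exact inv_anti₀ hρ (hsep x hx y hys (Ne.symm hyx))
    rw [abs_mul, abs_mul, div_pow, div_eq_inv_mul, ← inv_pow]
    exact mul_le_mul (hsf x hx) (mul_le_mul h5 h4 (abs_nonneg _) (by positivity))
      (by positivity) hδ
  calc _ ≤ ∑ x ∈ s, |f.eval x * ((∏ y ∈ s.erase x, (x - y)⁻¹) *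
      (∏ y ∈ s.erase x, (X - C y)).coeff k)| := Finset.abs_sum_le_sum_abs _ _
    _ ≤ ∑ x ∈ s, δ * ((1 + R) / ρ) ^ m := Finset.sum_le_sum h3
    _ = (m + 1) * δ * ((1 + R) / ρ) ^ m := by
      rw [Finset.sum_const, hs, nsmul_eq_mul]
      push_cast
      ring

/-- the measure of a sublevel set -/
lemma vol_le {m : ℕ} {f : ℝ[X]} (hf : f.natDegree ≤ m) {R δ ρ : ℝ} (hR : 0 ≤ R) (hρ : 0 < ρ)
    (hδ : 0 ≤ δ) {k : ℕ} (hk : (m + 1) * δ * ((1 + R) / ρ) ^ m < |f.coeff k|) :
    volume {x : ℝ | |x| ≤ R ∧ |f.eval x| ≤ δ} ≤ ENNReal.ofReal (2 * m * ρ) := by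
  by_contra hcon
  obtain ⟨s, hs, hsE, hsep⟩ := exists_sep hρ m (not_le.1 hcon) (m + 1) le_rfl
  exact absurd (coeff_le hf hs hR hρ hδ (fun x hx => (hsE hx).1) hsep (fun x hx => (hsE hx).2) k)
    (not_le.2 hk)

theorem metr : Pool.Agent.Helper80.MM.S_METR := by
  intro m N C0 Q hQ
  set C' : ℕ := C0 + (N + 2) * m + (m + 1) with hC'
  refine ⟨C', ?_⟩
  -- the bad sets
  let B : ℕ → ℕ → Set ℝ := fun R H =>
    {x : ℝ | 2 ≤ H ∧ |x| ≤ R ∧ ∃ f ∈ Q H, |f.eval x| * (H : ℝ) ^ C' < 1}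
  have hB : ∀ R H : ℕ, volume (B R H) ≤
      ENNReal.ofReal (3 ^ N * (2 * m * (1 + R)) * (1 / (H : ℝ) ^ 2)) := by
    intro R H
    by_cases hH : 2 ≤ H
    swap
    · have : B R H = ∅ := by
        ext x
        simp only [B, Set.mem_ofPred_eq, Set.mem_empty_iff_false, iff_false]
        exact fun h => hH h.1
      rw [this, measure_empty]
      exact bot_le
    obtain ⟨hfin, hcard, hf⟩ := hQ H hH
    have hH0 : (0 : ℝ) < H := by
      have : 0 < H := by omega
      exact_mod_cast this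
    have hH2 : (2 : ℝ) ≤ H := by exact_mod_cast hH
    set ρ : ℝ := (1 + R) * ((H : ℝ) ^ (N + 2))⁻¹ with hρd
    have hρ : 0 < ρ := by positivity
    set δ : ℝ := ((H : ℝ) ^ C')⁻¹ with hδd
    have hδ : 0 ≤ δ := by positivity
    have hsub : B R H ⊆ ⋃ f ∈ hfin.toFinset, {x : ℝ | |x| ≤ R ∧ |f.eval x| ≤ δ} := by
      rintro x ⟨_, hxR, f, hfQ, hfx⟩
      simp only [Set.mem_iUnion, Set.Finite.mem_toFinset]
      refine ⟨f, hfQ, hxR, ?_⟩
      rw [hδd, ← one_div, le_div_iff₀ (by positivity)]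
      exact hfx.le
    have hone : ∀ f ∈ hfin.toFinset, volume {x : ℝ | |x| ≤ R ∧ |f.eval x| ≤ δ} ≤
        ENNReal.ofReal (2 * m * ρ) := by
      intro f hfQ
      rw [Set.Finite.mem_toFinset] at hfQ
      obtain ⟨hdeg, k, hk⟩ := hf f hfQ
      refine vol_le hdeg (by positivity) hρ hδ (k := k) ?_
      have e1 : (1 + (R : ℝ)) / ρ = (H : ℝ) ^ (N + 2) := by
        rw [hρd]
        field_simp
      rw [e1]
      by_contra hcon
      rw [not_lt] at hcon
      have h1 : 1 ≤ ((m + 1) * δ * ((H : ℝ) ^ (N + 2)) ^ m) * (H : ℝ) ^ C0 :=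
        hk.trans (mul_le_mul_of_nonneg_right hcon (by positivity))
      have h2 : ((m + 1) * δ * ((H : ℝ) ^ (N + 2)) ^ m) * (H : ℝ) ^ C0 =
          (m + 1) / (H : ℝ) ^ (m + 1) := by
        rw [hδd, hC', pow_add, pow_add, pow_mul]
        field_simp
      rw [h2, le_div_iff₀ (by positivity), one_mul] at h1
      have h3 : (2 : ℝ) ^ (m + 1) ≤ (H : ℝ) ^ (m + 1) := pow_le_pow_left₀ (by norm_num) hH2 _
      have h4 : ((m + 1 : ℕ) : ℝ) < ((2 ^ (m + 1) : ℕ) : ℝ) := by
        exact_mod_cast Nat.lt_two_pow_self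
      push_cast at h4
      linarith
    calc volume (B R H) ≤ volume (⋃ f ∈ hfin.toFinset, {x : ℝ | |x| ≤ R ∧ |f.eval x| ≤ δ}) :=
          measure_mono hsub
      _ ≤ ∑ f ∈ hfin.toFinset, volume {x : ℝ | |x| ≤ R ∧ |f.eval x| ≤ δ} :=
          measure_biUnion_finset_le _ _
      _ ≤ ∑ f ∈ hfin.toFinset, ENNReal.ofReal (2 * m * ρ) := Finset.sum_le_sum hone
      _ = hfin.toFinset.card * ENNReal.ofReal (2 * m * ρ) := by
          rw [Finset.sum_const, nsmul_eq_mul]
      _ = ENNReal.ofReal (hfin.toFinset.card * (2 * m * ρ)) := by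
          rw [ENNReal.ofReal_mul (p := (hfin.toFinset.card : ℝ)) (by positivity),
            ENNReal.ofReal_natCast]
      _ ≤ _ := by
          apply ENNReal.ofReal_le_ofReal
          have h1 : (hfin.toFinset.card : ℝ) ≤ (3 * (H : ℝ)) ^ N := by
            rw [← Set.ncard_eq_toFinset_card _ hfin]
            have h2 : ((Q H).ncard : ℝ) ≤ (2 * (H : ℝ) + 1) ^ N := by exact_mod_cast hcard
            refine h2.trans (pow_le_pow_left₀ (by positivity) (by linarith) _)
          calc (hfin.toFinset.card : ℝ) * (2 * m * ρ) ≤ (3 * (H : ℝ)) ^ N * (2 * m * ρ) :=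
                mul_le_mul_of_nonneg_right h1 (by positivity)
            _ = 3 ^ N * (2 * m * (1 + R)) * (1 / (H : ℝ) ^ 2) := by
                rw [hρd, mul_pow, pow_add]
                field_simp
  have hae : ∀ R : ℕ, ∀ᵐ x : ℝ, ∀ᶠ H in atTop, x ∉ B R H := by
    intro R
    apply ae_eventually_notMem
    have hsum : Summable fun H : ℕ => 3 ^ N * (2 * m * (1 + (R : ℝ))) * (1 / (H : ℝ) ^ 2) :=
      (Real.summable_one_div_nat_pow.2 (by norm_num)).mul_left _
    exact ne_top_of_le_ne_top hsum.tsum_ofReal_ne_top (ENNReal.tsum_le_tsum (hB R))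
  filter_upwards [ae_all_iff.2 hae] with x hx
  obtain ⟨R, hR⟩ := exists_nat_ge |x|
  obtain ⟨H0, hH0⟩ := eventually_atTop.1 (hx R)
  refine ⟨H0, fun H hH h2 f hf => ?_⟩
  by_contra hcon
  exact hH0 H hH ⟨h2, hR, f, hf, not_le.1 hcon⟩

end Pool.Agent.Helper32.MM
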